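import Pool.Agent.Q72.AL.Stm4

/-! Project AL, job QQC: `QQ` is continuous. -/

set_option autoImplicit false

open Complex MeasureTheory Filter Topology Set
open H345 (Zo aa XX)

namespace Pool.Agent.Q142.AL

open Pool.Agent.Q72.AL

theorem qqc_c1 (Z : Finset ℝ) (w T : ℝ) : Continuous fun x : ℝ => ZZ Z 2 (w + x) T := by
  unfold ZZ
  refine continuous_finsetSum _ fun t _ => ?_
  refine Continuous.mul continuous_const ?_
  refine Complex.continuous_exp.comp (Continuous.mul ?_ continuous_const)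
  refine Complex.continuous_ofReal.comp ?_
  exact continuous_const.mul (continuous_const.add continuous_id)

theorem qqc_c2 (Z : Finset ℝ) (v : ℝ) : Continuous fun T : ℝ => ZZ Z 2 v T := by
  unfold ZZ
  refine continuous_finsetSum _ fun t _ => ?_
  refine Continuous.mul (Continuous.mul continuous_const ?_) ?_
  · refine Complex.continuous_ofReal.comp ?_
    refine Real.continuous_exp.comp ?_
    exact (continuous_const.mul ((continuous_const.sub continuous_id).pow 2)).neg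
  · refine Complex.continuous_exp.comp (Continuous.mul ?_ continuous_const)
    refine Complex.continuous_ofReal.comp ?_
    exact (continuous_const.sub continuous_id).mul continuous_const

theorem qqc_bd1 (Z : Finset ℝ) (v T : ℝ) : ‖ZZ Z 2 v T‖ ≤ ∑ t ∈ Z, ‖aa t‖ := by
  unfold ZZ
  refine (norm_sum_le _ _).trans (Finset.sum_le_sum fun t _ => ?_)
  rw [norm_mul, norm_mul, Complex.norm_exp_ofReal_mul_I, mul_one, Complex.norm_real,
    Real.norm_eq_abs, Real.abs_exp]
  refine mul_le_of_le_one_right (norm_nonneg _) ?_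
  rw [Real.exp_le_one_iff]
  nlinarith [sq_nonneg (t - T)]

theorem qqc_ic : Continuous fun x : ℝ => (1 + x ^ 2)⁻¹ :=
  Continuous.inv₀ (by fun_prop) fun x => by positivity

theorem qqc_c3 (Z : Finset ℝ) (w T : ℝ) :
    Continuous fun x : ℝ => (1 + x ^ 2)⁻¹ * ‖ZZ Z 2 (w + x) T‖ ^ 2 :=
  qqc_ic.mul ((qqc_c1 Z w T).norm.pow 2)

theorem qqc_bd (Z : Finset ℝ) (w T x : ℝ) : ‖(1 + x ^ 2)⁻¹ * ‖ZZ Z 2 (w + x) T‖ ^ 2‖ ≤
    (1 + x ^ 2)⁻¹ * (∑ t ∈ Z, ‖aa t‖) ^ 2 := by
  have h1 : (0 : ℝ) ≤ (1 + x ^ 2)⁻¹ := by positivity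
  rw [Real.norm_eq_abs, abs_of_nonneg (mul_nonneg h1 (by positivity))]
  exact mul_le_mul_of_nonneg_left (pow_le_pow_left₀ (norm_nonneg _) (qqc_bd1 Z _ T) 2) h1

theorem qqc_nn (Z : Finset ℝ) (w T : ℝ) : 0 ≤ QQ Z w T := by
  unfold QQ
  exact integral_nonneg fun x => mul_nonneg (by positivity) (by positivity)

theorem qqc_it (Z : Finset ℝ) (w T : ℝ) :
    Integrable (fun x : ℝ => (1 + x ^ 2)⁻¹ * ‖ZZ Z 2 (w + x) T‖ ^ 2) :=
  Integrable.mono' (integrable_inv_one_add_sq.mul_const ((∑ t ∈ Z, ‖aa t‖) ^ 2))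
    (qqc_c3 Z w T).aestronglyMeasurable (Filter.Eventually.of_forall (qqc_bd Z w T))

theorem qqc_ct (Z : Finset ℝ) (w : ℝ) : Continuous (QQ Z w) := by
  unfold QQ
  refine MeasureTheory.continuous_of_dominated
      (bound := fun x : ℝ => (1 + x ^ 2)⁻¹ * (∑ t ∈ Z, ‖aa t‖) ^ 2)
      (fun T => (qqc_c3 Z w T).aestronglyMeasurable)
      (fun T => Filter.Eventually.of_forall (qqc_bd Z w T))
      (integrable_inv_one_add_sq.mul_const _) (Filter.Eventually.of_forall fun x => ?_)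
  exact continuous_const.mul ((qqc_c2 Z (w + x)).norm.pow 2)

theorem qqc : J_QQC := fun Z w => ⟨qqc_ct Z w, qqc_it Z w, qqc_nn Z w⟩

end Pool.Agent.Q142.AL
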